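import Pool.Agent.Helper76.TB.Goals
import Pool.Agent.Helper32.BFT.FU

/-!
# Project TB, packet U-INV: full-period averages
-/

set_option autoImplicit false

open Finset

namespace Pool.Agent.Helper12.TB

open Pool.Agent.Helper90.Twin (Ps Gz GG SieveSys avgI XX yy mem_Ps Ps_mono
  sum_range_shift_periodic sieveSys)
open Pool.Agent.Helper60.BFT (yA)
open Pool.Agent.Helper32.BFT (sieveSysA)

/-- the local sums do not depend on the class -/
theorem local_eq (A : ℕ → ℕ) {p : ℕ} (hp : p.Prime) (h5 : 5 ≤ p) (I : Finset ℕ) :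
    ∑ t ∈ range p, ∏ i ∈ I, (1 - yA A p (t + i)) = ∑ t ∈ range p, ∏ i ∈ I, (1 - yy p (t + i)) := by
  have : Fact p.Prime := ⟨hp⟩
  have h6 : ((6 : ℕ) : ZMod p) ≠ 0 := by
    rw [Ne, ZMod.natCast_eq_zero_iff]
    intro h
    have h1 : p ∣ 2 * 3 := by simpa using h
    rcases (Nat.Prime.dvd_mul hp).1 h1 with h2 | h2
    · have := Nat.le_of_dvd (by norm_num) h2
      omega
    · have := Nat.le_of_dvd (by norm_num) h2
      omega
  obtain ⟨s, hs⟩ : ∃ s : ℕ, ((6 * s + 5 : ℕ) : ZMod p) = (A p : ZMod p) := by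
    refine ⟨(((A p : ZMod p) - 5) * ((6 : ℕ) : ZMod p)⁻¹).val, ?_⟩
    push_cast
    rw [ZMod.natCast_zmod_val]
    push_cast at h6
    field_simp
    ring
  have hdvd : ∀ x c : ℕ, p ∣ 6 * (s + x) + (5 + c) ↔ p ∣ 6 * x + (A p + c) := by
    intro x c
    rw [← ZMod.natCast_eq_zero_iff, ← ZMod.natCast_eq_zero_iff]
    have h1 : ((6 * (s + x) + (5 + c) : ℕ) : ZMod p) = ((6 * x + (A p + c) : ℕ) : ZMod p) := by
      push_cast at hs ⊢
      linear_combination hs
    rw [h1]
  have hy : ∀ x, yA A p x = yy p (s + x) := by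
    intro x
    unfold yA Pool.Agent.Helper60.BFT.bad yy Pool.Agent.Helper90.Twin.bad
    have h0 := hdvd x 0
    have h2 := hdvd x 2
    rw [add_zero, add_zero] at h0
    rw [show 5 + 2 = 7 from rfl, ← add_assoc] at h2
    by_cases ha : p ∣ 6 * x + A p
    · rw [if_pos (Or.inl ha), if_pos (Or.inl (h0.2 ha))]
    · by_cases hb : p ∣ 6 * x + A p + 2
      · rw [if_pos (Or.inr hb), if_pos (Or.inr (h2.2 hb))]
      · rw [if_neg, if_neg]
        · rintro (h | h)
          · exact ha (h0.1 h)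
          · exact hb (h2.1 h)
        · rintro (h | h)
          · exact ha h
          · exact hb h
  have hper : ∀ x, (fun t => ∏ i ∈ I, (1 - yy p (t + i))) (x + p) =
      (fun t => ∏ i ∈ I, (1 - yy p (t + i))) x := by
    intro x
    apply Finset.prod_congr rfl
    intro i _
    rw [show x + p + i = x + i + p by ring,
      (sieveSys p).per p (mem_Ps.2 ⟨h5, le_rfl, hp⟩)]
  rw [← sum_range_shift_periodic (f := fun t => ∏ i ∈ I, (1 - yy p (t + i))) hper s]
  apply Finset.sum_congr rfl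
  intro t _
  apply Finset.prod_congr rfl
  intro i _
  rw [hy, add_assoc]

theorem avg_eq {s : Finset ℕ} {y : ℕ → ℕ → ℝ} (hs : SieveSys s y) (I : Finset ℕ) :
    avgI s y I = ∏ p ∈ s, ((∑ t ∈ range p, ∏ i ∈ I, (1 - y p (t + i))) / (p : ℝ)) :=
  hs.avg_prod I

/-- packet INV -/
theorem inv : Pool.Agent.Helper76.TB.INVG := by
  refine ⟨?_, ?_, ?_, ?_⟩
  · intro r A I
    rw [avg_eq (sieveSysA A r), avg_eq (sieveSys r)]
    apply Finset.prod_congr rfl
    intro p hp
    rw [mem_Ps] at hp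
    rw [local_eq A hp.2.2 hp.1 I]
  · intro r Z hr I
    rw [avg_eq ((sieveSys Z).mono Finset.sdiff_subset), avg_eq (sieveSys r), avg_eq (sieveSys Z),
      Finset.prod_sdiff (Ps_mono hr)]
  · intro r Z I
    have hS := (sieveSys Z).mono (Finset.sdiff_subset (s := Ps Z) (t := Ps r))
    rw [avg_eq hS]
    have h01 : ∀ p ∈ Ps Z \ Ps r, ∀ t, 0 ≤ ∏ i ∈ I, (1 - yy p (t + i)) ∧
        ∏ i ∈ I, (1 - yy p (t + i)) ≤ 1 := by
      intro p hp t
      constructor
      · exact Finset.prod_nonneg fun i _ => by linarith [hS.y_le_one hp (t + i)]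
      · exact Finset.prod_le_one (fun i _ => by linarith [hS.y_le_one hp (t + i)])
          (fun i _ => by linarith [hS.y_nonneg hp (t + i)])
    constructor
    · refine Finset.prod_nonneg fun p hp => div_nonneg (Finset.sum_nonneg fun t _ => ?_)
        (Nat.cast_nonneg _)
      exact (h01 p hp t).1
    · refine Finset.prod_le_one (fun p hp => div_nonneg (Finset.sum_nonneg fun t _ => ?_)
        (Nat.cast_nonneg _)) (fun p hp => ?_)
      · exact (h01 p hp t).1
      · have hp0 : (0 : ℝ) < p := by exact_mod_cast hS.pos hp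
        rw [div_le_one hp0]
        calc ∑ t ∈ range p, ∏ i ∈ I, (1 - yy p (t + i)) ≤ ∑ _t ∈ range p, (1 : ℝ) :=
              Finset.sum_le_sum fun t _ => (h01 p hp t).2
          _ = p := by simp
  · intro Z
    have h := (sieveSys Z).avg_one 0
    unfold avgI
    simp only [Finset.prod_singleton]
    rw [h]
    rfl

end Pool.Agent.Helper12.TB
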